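import Pool.Agent.H.MP_50aa38_lc.D

namespace Pool.Agent.H.MP_50aa38_lc

open FirstOrder Language Classical

abbrev K : Type := (Bool × ℕ) ⊕ (Bool × (ℕ → Bool))
abbrev X : Type := K → Bool

def base (x : X) (e : Bool) : ℕ → Bool := fun n => x (.inl (e, n))
def dir (x : X) (e : Bool) : K := .inr (e, base x e)
noncomputable def flp (x : X) (e : Bool) : X := fun k => if k = dir x e then !x k else x k
def R (x y : X) : Prop := y = x ∨ ∃ e, y = flp x e

theorem flp_ne {x : X} {e : Bool} {k : K} (h : k ≠ dir x e) : flp x e k = x k := if_neg h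

theorem base_flp (x : X) (e e' : Bool) : base (flp x e) e' = base x e' :=
  funext fun _ => flp_ne (by simp [dir])

theorem dir_flp (x : X) (e e' : Bool) : dir (flp x e) e' = dir x e' := by
  simp only [dir, base_flp]

theorem flp_flp (x : X) (e : Bool) : flp (flp x e) e = x := by
  funext k
  by_cases h : k = dir x e <;> simp [flp, dir_flp, h]

theorem R.symm {x y : X} : R x y → R y x
  | .inl h => .inl h.symm
  | .inr ⟨e, h⟩ => .inr ⟨e, by rw [h, flp_flp]⟩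

def Dep (c : Set X) (F : Finset K) : Prop := ∀ x y : X, (∀ k ∈ F, x k = y k) → x ∈ c → y ∈ c

def sub (A : Set K) : BooleanSubalgebra (Set X) where
  carrier := {c | ∃ F : Finset K, ↑F ⊆ A ∧ Dep c F}
  supClosed' := by
    rintro c ⟨F, h1, h2⟩ d ⟨G, h3, h4⟩
    exact ⟨F ∪ G, by simp [h1, h3], fun x y h => Or.imp (h2 x y fun k hk => h k (by simp [hk]))
      (h4 x y fun k hk => h k (by simp [hk]))⟩
  infClosed' := by
    rintro c ⟨F, h1, h2⟩ d ⟨G, h3, h4⟩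
    exact ⟨F ∪ G, by simp [h1, h3], fun x y h => And.imp (h2 x y fun k hk => h k (by simp [hk]))
      (h4 x y fun k hk => h k (by simp [hk]))⟩
  compl_mem' := by
    rintro c ⟨F, h1, h2⟩
    exact ⟨F, h1, fun x y h hx hy => hx (h2 y x (fun k hk => (h k hk).symm) hy)⟩
  bot_mem' := ⟨∅, by simp, fun _ _ _ h => h⟩

def Ct (c d : Set X) : Prop := ∃ x ∈ c, ∃ y ∈ d, R x y

@[reducible] def alg (A : Set K) : ContactAlg where
  B := sub A
  C a b := Ct a b
  c1 := by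
    rintro a b ⟨x, hx, y, hy, -⟩
    constructor <;> rintro rfl <;> assumption
  c2 a b c := by
    constructor
    · rintro ⟨x, hx, y, hy | hy, h⟩
      exacts [.inl ⟨x, hx, y, hy, h⟩, .inr ⟨x, hx, y, hy, h⟩]
    · rintro (⟨x, hx, y, hy, h⟩ | ⟨x, hx, y, hy, h⟩)
      exacts [⟨x, hx, y, .inl hy, h⟩, ⟨x, hx, y, .inr hy, h⟩]
  c3 := fun _ _ ⟨x, hx, y, hy, h⟩ => ⟨y, hy, x, hx, h.symm⟩
  c4 a b h := by
    obtain ⟨x, hx⟩ : ((a : Set X) ∩ b).Nonempty :=
      Set.nonempty_iff_ne_empty.2 fun h2 => h (Subtype.ext h2)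
    exact ⟨x, hx.1, x, hx.2, .inl rfl⟩

def cyl (A : Set K) (q : X) (F : Finset K) (h : ↑F ⊆ A) : (alg A).B :=
  ⟨{x | ∀ k ∈ F, x k = q k}, F, h, fun _ _ h1 h2 k hk => (h1 k hk).symm.trans (h2 k hk)⟩

theorem not_reg : ¬Reg (alg Set.univ) := by
  intro h
  obtain ⟨G, ⟨⟨⟨-, h0, hu, hp, hc⟩, -⟩, he⟩, ht, -⟩ :=
    h ⊤ ⊤ ⟨fun _ => true, trivial, _, trivial, .inl rfl⟩
  obtain ⟨z, hz⟩ : ∃ z : X, ∀ c : (alg Set.univ).B, z ∈ (c : Set X) → c ∈ G := by
    by_contra hn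
    push Not at hn
    choose c h1 h2 using hn
    have ho : ∀ z, IsOpen (c z : Set X) := fun z => by
      obtain ⟨F, -, hF⟩ := (c z).2
      refine isOpen_iff_forall_mem_open.2 fun x hx => ⟨{y | ∀ k ∈ F, y k = x k},
        fun y hy => hF x y (fun k hk => (hy k hk).symm) hx, ?_, fun _ _ => rfl⟩
      simp only [Set.setOf_forall]
      exact isOpen_biInter_finset fun k _ =>
        (isOpen_discrete ({x k} : Set Bool)).preimage (f := fun y : X => y k) (continuous_apply k)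
    obtain ⟨t, ht2⟩ := isCompact_univ.elim_finite_subcover _ ho
      fun z _ => Set.mem_iUnion.2 ⟨z, h1 z⟩
    have h3 : ∀ s : Finset X, s.sup c ∉ G ∧ ∀ z ∈ s, (c z : Set X) ⊆ (s.sup c : (alg _).B) := by
      refine fun s => ⟨?_, fun z hz => Finset.le_sup (f := c) hz⟩
      induction s using Finset.induction_on with
      | empty => exact h0
      | insert a s _ ih =>
        rw [Finset.sup_insert]
        exact fun h => (hp _ _ h).elim (h2 a) ih
    refine (h3 t).1 (hu _ ht _ fun x _ => ?_)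
    obtain ⟨z, hz, hx⟩ := Set.mem_iUnion₂.1 (ht2 (Set.mem_univ x))
    exact (h3 t).2 z hz hx
  have h1 : ∀ e, ∀ c : (alg Set.univ).B, flp z e ∈ (c : Set X) → c ∈ G := fun e c h1 => by
    by_contra h2
    obtain ⟨d, h3, h4⟩ := he c h2
    exact h4 ⟨_, h1, z, fun h5 => h3 (hz d h5), R.symm (.inr ⟨e, rfl⟩)⟩
  have hd : dir z true ≠ dir z false := by simp [dir]
  obtain ⟨x, hx, y, hy, hxy⟩ := hc
    _ (h1 true (cyl _ (flp z true) {dir z true, dir z false} (by simp)) fun _ _ => rfl)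
    _ (h1 false (cyl _ (flp z false) {dir z true, dir z false} (by simp)) fun _ _ => rfl)
  have h2 : y (dir z true) ≠ x (dir z true) := by
    rw [hx _ (by simp), hy _ (by simp), flp_ne hd]
    simp [flp]
  have h3 : y (dir z false) ≠ x (dir z false) := by
    rw [hx _ (by simp), hy _ (by simp), flp_ne hd.symm]
    simp [flp]
  rcases hxy with rfl | ⟨e, rfl⟩
  · exact h2 rfl
  · by_cases h4 : dir z true = dir x e
    · exact h3 (flp_ne fun h5 => hd (h4.trans h5.symm))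
    · exact h2 (flp_ne h4)

def Ev (s : ℕ → Bool) : Prop := ∃ N, ∀ n ≥ N, s n = false

def A0 : Set K := {k | ∀ e s, k = .inr (e, s) → Ev s}

theorem sep (c : (alg A0).B) (q : X) (h : ∀ y ∈ (c : Set X), ¬R q y) :
    ∃ d : (alg A0).B, q ∈ (d : Set X) ∧ ¬Ct c d := by
  obtain ⟨F, h1, h2⟩ := c.2
  have h3 : ∀ k : K, ∃ g : K, g ∈ A0 ∧ ∀ x : X, ∀ e, dir x e = k → x g = q g → dir q e = k := by
    rintro (k | ⟨e, s⟩)
    · exact ⟨.inl k, by simp [A0], by simp [dir]⟩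
    · by_cases h3 : base q e = s
      · refine ⟨.inl (e, 0), by simp [A0], fun x e' h4 _ => ?_⟩
        simp only [dir, Sum.inr.injEq, Prod.mk.injEq] at h4 ⊢
        exact ⟨h4.1, h4.1 ▸ h3⟩
      · obtain ⟨n, hn⟩ := Function.ne_iff.1 h3
        refine ⟨.inl (e, n), by simp [A0], fun x e' h4 h5 => ?_⟩
        simp only [dir, Sum.inr.injEq, Prod.mk.injEq] at h4
        obtain ⟨rfl, rfl⟩ := h4
        exact absurd h5.symm hn
  choose g h4 h5 using h3
  refine ⟨cyl _ q (F ∪ F.image g) ?_, fun _ _ => rfl, ?_⟩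
  · simp only [Finset.coe_union, Finset.coe_image, Set.union_subset_iff, h1, true_and]
    rintro _ ⟨k, -, rfl⟩
    exact h4 k
  rintro ⟨y, hy, x, hx, hxy⟩
  have h6 : ∀ k ∈ F, x k = q k := fun k hk => hx k (by simp [hk])
  rcases hxy.symm with rfl | ⟨e, rfl⟩
  · exact h q (h2 _ _ h6 hy) (.inl rfl)
  by_cases h7 : dir x e ∈ F
  · have h8 := h5 _ x e rfl (hx _ (Finset.mem_union_right _ (Finset.mem_image_of_mem g h7)))
    exact h (flp q e) (h2 _ _ (fun k hk => by simp only [flp, h8, h6 k hk]) hy) (.inr ⟨e, rfl⟩)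
  · exact h q (h2 _ _ (fun k hk => (flp_ne (by rintro rfl; exact h7 hk)).trans (h6 k hk)) hy)
      (.inl rfl)

theorem bound (F : Finset K) : ∃ N, ∀ e n, Sum.inl (e, n) ∈ F → n < N :=
  ⟨F.sup (Sum.elim (fun p => p.2 + 1) fun _ => 0), fun _ _ h =>
    Finset.le_sup (f := Sum.elim (fun p : Bool × ℕ => p.2 + 1) fun _ => 0) h⟩

theorem coend (p : X) (e : Bool) (h : ¬Ev (base p !e)) :
    IsCoEnd (alg A0) {c | p ∈ (c : Set X) ∨ flp p e ∈ (c : Set X)} := by
  have h1 : ∀ c : (alg A0).B, ∀ q, base q (!e) = base p (!e) → flp q (!e) ∈ (c : Set X) →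
      q ∈ (c : Set X) := fun c q hq => by
    obtain ⟨F, h1, h2⟩ := c.2
    refine h2 _ _ fun k hk => flp_ne ?_
    rintro rfl
    exact h (hq ▸ h1 hk _ _ rfl)
  have h2 : ∀ a : (alg A0).B, ¬(p ∈ (a : Set X) ∨ flp p e ∈ (a : Set X)) →
      ∃ b : (alg A0).B, ¬(p ∈ (b : Set X) ∨ flp p e ∈ (b : Set X)) ∧ ¬Ct a (bᶜ : (alg A0).B) := by
    intro a ha
    push Not at ha
    obtain ⟨d, h3, h4⟩ := sep a p (by
      rintro y hy (rfl | ⟨e', rfl⟩)
      · exact ha.1 hy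
      · rcases Bool.eq_or_eq_not e' e with rfl | rfl
        exacts [ha.2 hy, ha.1 (h1 a p rfl hy)])
    obtain ⟨d', h5, h6⟩ := sep a (flp p e) (by
      rintro y hy (rfl | ⟨e', rfl⟩)
      · exact ha.2 hy
      · rcases Bool.eq_or_eq_not e' e with rfl | rfl
        exacts [ha.1 (by rwa [flp_flp] at hy), ha.2 (h1 a _ (base_flp _ _ _) hy)])
    refine ⟨(d ⊔ d')ᶜ, fun h7 => h7.elim (· (.inl h3)) (· (.inr h5)), ?_⟩
    rintro ⟨u, hu, v, hv, h7⟩
    exact (not_not.1 hv).elim (fun h8 => h4 ⟨u, hu, v, h8, h7⟩) fun h8 => h6 ⟨u, hu, v, h8, h7⟩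
  refine ⟨⟨⟨⟨⊤, .inl trivial⟩, fun h => h.elim id id, fun a ha b hab =>
    ha.imp (fun h => hab h) fun h => hab h, ?_, ?_⟩, fun a ha => ?_⟩, h2⟩
  · rintro a b ((h | h) | (h | h))
    exacts [.inl (.inl h), .inr (.inl h), .inl (.inr h), .inr (.inr h)]
  · rintro a (ha | ha) b (hb | hb)
    exacts [⟨_, ha, _, hb, .inl rfl⟩, ⟨_, ha, _, hb, .inr ⟨e, rfl⟩⟩,
      ⟨_, ha, _, hb, R.symm (.inr ⟨e, rfl⟩)⟩, ⟨_, ha, _, hb, .inl rfl⟩]
  · by_contra h3
    obtain ⟨b, h4, h5⟩ := h2 a h3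
    exact h5 (ha bᶜ (.inl fun h6 => h4 (.inl h6)))

theorem reg : Reg (alg A0) := by
  rintro a b ⟨x, hx, y, hy, hxy⟩
  obtain ⟨F, -, hF⟩ := a.2
  obtain ⟨G, -, hG⟩ := b.2
  obtain ⟨N, hN⟩ := bound (F ∪ G)
  have key : ∀ e, ∃ p : X, (∀ k ∈ F ∪ G, x k = p k) ∧ dir p e = dir x e ∧ ¬Ev (base p !e) := by
    intro e
    refine ⟨Sum.elim (fun k => if k.1 = !e ∧ N ≤ k.2 then true else x (.inl k))
      fun k => x (.inr k), ?_, ?_, ?_⟩
    · rintro (⟨e', n⟩ | k) hk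
      · have := hN _ _ hk
        simp [this.not_ge]
      · rfl
    · simp only [dir, Sum.inr.injEq, Prod.mk.injEq, true_and]
      funext n
      simp [base]
    · rintro ⟨M, hM⟩
      simpa [base] using hM (max M N) (le_max_left _ _)
  rcases hxy with rfl | ⟨e, rfl⟩
  · obtain ⟨p, h1, -, h3⟩ := key true
    exact ⟨_, coend p _ h3, .inl (hF _ _ (fun k hk => h1 k (by simp [hk])) hx),
      .inl (hG _ _ (fun k hk => h1 k (by simp [hk])) hy)⟩
  · obtain ⟨p, h1, h2, h3⟩ := key e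
    refine ⟨_, coend p _ h3, .inl (hF _ _ (fun k hk => h1 k (by simp [hk])) hx),
      .inr (hG _ _ (fun k hk => ?_) hy)⟩
    simp only [flp, h2, h1 k (by simp [hk])]

end Pool.Agent.H.MP_50aa38_lc
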