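import Pool.Agent.H.MP_50aa38_lc.A

namespace Pool.Agent.H.MP_50aa38_lc

open FirstOrder Language Classical

noncomputable instance (A : Set K) : L.Structure (sub A) := str (alg A)

noncomputable def inc : (alg A0).B ↪[L] (alg Set.univ).B where
  toFun c := ⟨c, c.2.imp fun _ h => ⟨by simp, h.2⟩⟩
  inj' _ _ h := Subtype.ext (congrArg Subtype.val h :)
  map_fun' f _ := by cases f <;> rfl
  map_rel' r _ := by cases r; rfl

noncomputable def pick (P : (ℕ → Bool) → Prop) : ℕ → Bool :=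
  if h : ∃ t, P t then h.choose else fun _ => false

noncomputable def hh (T : Set (ℕ → Bool)) (N : ℕ) (x : ℕ → Bool) : ℕ → Bool := fun n =>
  if n < N then x n else xor (x n) (pick (fun t => t ∈ T ∧ ¬Ev t ∧ ∀ m < N, t m = x m) n)

variable {T : Set (ℕ → Bool)} {N : ℕ}

theorem hh_lt {x : ℕ → Bool} {n : ℕ} (h : n < N) : hh T N x n = x n := if_pos h

theorem hh_dep {x y : ℕ → Bool} {n : ℕ} (h : ∀ m < N, x m = y m) :
    pick (fun t => t ∈ T ∧ ¬Ev t ∧ ∀ m < N, t m = x m) n =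
      pick (fun t => t ∈ T ∧ ¬Ev t ∧ ∀ m < N, t m = y m) n := by
  congr! 6 with t m hm
  rw [h m hm]

theorem hh_hh (x : ℕ → Bool) : hh T N (hh T N x) = x := by
  funext n
  by_cases h : n < N
  · rw [hh_lt h, hh_lt h]
  · rw [hh, if_neg h, hh_dep (y := x) fun m hm => hh_lt hm, hh, if_neg h]
    simp

theorem hh_fix (hT : ∀ s ∈ T, ∀ t ∈ T, (∀ m < N, s m = t m) → s = t) {s : ℕ → Bool} (h : s ∈ T)
    (h2 : Ev s) : hh T N s = s := by
  funext n
  rw [hh, pick, dif_neg]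
  · simp
  · rintro ⟨t, h3, h4, h5⟩
    exact h4 (hT t h3 s h h5 ▸ h2)

theorem hh_ev (hT : ∀ s ∈ T, ∀ t ∈ T, (∀ m < N, s m = t m) → s = t) {s : ℕ → Bool} (h : s ∈ T) :
    Ev (hh T N s) := by
  by_cases h2 : Ev s
  · rwa [hh_fix hT h h2]
  · have h3 : ∃ t, t ∈ T ∧ ¬Ev t ∧ ∀ m < N, t m = s m := ⟨s, h, h2, fun _ _ => rfl⟩
    refine ⟨N, fun n hn => ?_⟩
    rw [hh, if_neg hn.not_gt, pick, dif_pos h3, hT _ h3.choose_spec.1 s h h3.choose_spec.2.2]
    simp

noncomputable def HH (T : Set (ℕ → Bool)) (N : ℕ) (x : X) : X :=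
  Sum.elim (fun k => hh T N (base x k.1) k.2) fun k => x (.inr (k.1, hh T N k.2))

theorem base_H (x : X) (e : Bool) : base (HH T N x) e = hh T N (base x e) := rfl

theorem H_H (x : X) : HH T N (HH T N x) = x := by
  funext k
  rcases k with ⟨e, n⟩ | ⟨e, s⟩
  · exact congrFun (hh_hh (base x e)) n
  · simp [HH, hh_hh]

theorem H_flp (x : X) (e : Bool) : HH T N (flp x e) = flp (HH T N x) e := by
  funext k
  rcases k with ⟨e', n⟩ | ⟨e', s⟩
  · rw [flp_ne (by simp [dir])]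
    simp [HH, base_flp]
  · have : (Sum.inr (e', hh T N s) : K) = dir x e ↔ (Sum.inr (e', s) : K) = dir (HH T N x) e := by
      simp only [dir, base_H, Sum.inr.injEq, Prod.mk.injEq]
      refine and_congr_right fun _ => ⟨fun h => by rw [← h, hh_hh], fun h => by rw [h, hh_hh]⟩
    simp only [flp, ← this]
    rfl

theorem H_R {x y : X} : R x y → R (HH T N x) (HH T N y)
  | .inl h => .inl (by rw [h])
  | .inr ⟨e, h⟩ => .inr ⟨e, by rw [h, H_flp]⟩

noncomputable def sup' (T : Set (ℕ → Bool)) (N : ℕ) (F : Finset K) : Finset K :=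
  F.image (Sum.map id fun k => (k.1, hh T N k.2)) ∪
    ((Finset.univ ×ˢ Finset.range N).image Sum.inl)

theorem H_dep {c : Set X} {F : Finset K} (h : Dep c F) : Dep (HH T N ⁻¹' c) (sup' T N F) := by
  refine fun x y hxy => h _ _ fun k hk => ?_
  have h1 := hxy _ (Finset.mem_union_left _ (Finset.mem_image_of_mem _ hk))
  rcases k with ⟨e, n⟩ | ⟨e, s⟩
  · have h2 : ∀ m < N, base x e m = base y e m := fun m hm =>
      hxy _ (Finset.mem_union_right _ (Finset.mem_image_of_mem _ (by simpa using hm)))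
    have h3 : base x e n = base y e n := h1
    simp only [HH, Sum.elim_inl, hh, h3, hh_dep h2]
  · exact h1

noncomputable def g (T : Set (ℕ → Bool)) (N : ℕ) (c : (alg Set.univ).B) : (alg Set.univ).B :=
  ⟨HH T N ⁻¹' c, by
    obtain ⟨F, -, h⟩ := c.2
    exact ⟨_, by simp, H_dep h⟩⟩

theorem g_g (c : (alg Set.univ).B) : g T N (g T N c) = c :=
  Subtype.ext (Set.ext fun x => by simp [g, H_H])

noncomputable def aut (T : Set (ℕ → Bool)) (N : ℕ) : (alg Set.univ).B ≃[L] (alg Set.univ).B where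
  toFun := g T N
  invFun := g T N
  left_inv := g_g
  right_inv := g_g
  map_fun' f _ := by cases f <;> rfl
  map_rel' r v := by
    cases r
    exact ⟨fun ⟨x, hx, y, hy, h⟩ => ⟨_, hx, _, hy, H_R h⟩, fun ⟨x, hx, y, hy, h⟩ =>
      ⟨HH T N x, by simpa [g, H_H] using hx, HH T N y, by simpa [g, H_H] using hy, H_R h⟩⟩

theorem move {n : ℕ} (x : Fin n → (alg A0).B) (a : (alg Set.univ).B) : ∃ T N, ∃ b : (alg A0).B,
    (∀ i, aut T N (inc (x i)) = inc (x i)) ∧ aut T N a = inc b := by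
  choose F h1 h2 using fun i => (x i).2
  obtain ⟨G, -, hG⟩ := a.2
  let U : Finset K := G ∪ Finset.univ.biUnion F
  let T : Finset (ℕ → Bool) := U.image (Sum.elim (fun _ _ => false) fun k => k.2)
  obtain ⟨N1, hN1⟩ := bound U
  obtain ⟨N2, hN2⟩ : ∃ N, ∀ s ∈ T, ∀ t ∈ T, (∀ m < N, s m = t m) → s = t := by
    have : ∀ p : (ℕ → Bool) × (ℕ → Bool), ∃ n, p.1 n = p.2 n → p.1 = p.2 := fun p => by
      by_cases h : p.1 = p.2
      · exact ⟨0, fun _ => h⟩
      · obtain ⟨n, hn⟩ := Function.ne_iff.1 h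
        exact ⟨n, fun h => absurd h hn⟩
    choose f hf using this
    exact ⟨(T ×ˢ T).sup f + 1, fun s hs t ht h => hf (s, t) (h _ (Nat.lt_succ_of_le
      (Finset.le_sup (f := f) (Finset.mk_mem_product hs ht))))⟩
  have hT : ∀ s ∈ (T : Set (ℕ → Bool)), ∀ t ∈ (T : Set (ℕ → Bool)),
      (∀ m < max N1 N2, s m = t m) → s = t :=
    fun s hs t ht h => hN2 s hs t ht fun m hm => h m (lt_max_of_lt_right hm)
  have hm : ∀ e s, Sum.inr (e, s) ∈ U → s ∈ (T : Set (ℕ → Bool)) := fun e s h =>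
    Finset.mem_coe.2 (Finset.mem_image.2 ⟨_, h, rfl⟩)
  refine ⟨T, max N1 N2, ⟨HH T (max N1 N2) ⁻¹' a, _, ?_, H_dep hG⟩, fun i => ?_, rfl⟩
  · intro k hk e s hs
    subst hs
    simp only [sup', Finset.coe_union, Finset.coe_image, Set.mem_union, Set.mem_image] at hk
    rcases hk with ⟨⟨_, _⟩ | ⟨e', t⟩, hk, h⟩ | ⟨_, _, h⟩ <;> simp at h
    exact h.2 ▸ hh_ev hT (hm e' t (Finset.mem_union_left _ hk))
  · have h3 : ∀ y : X, ∀ k ∈ F i, HH T (max N1 N2) y k = y k := by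
      intro y k hk
      have h4 : k ∈ U := Finset.mem_union_right _ (Finset.mem_biUnion.2 ⟨i, by simp, hk⟩)
      rcases k with ⟨e, n⟩ | ⟨e, s⟩
      · exact hh_lt (lt_max_of_lt_left (hN1 e n h4))
      · simp only [HH, Sum.elim_inr, hh_fix hT (hm e s h4) (h1 i hk e s rfl)]
    exact Subtype.ext (Set.ext fun y => ⟨h2 i _ _ (h3 y), h2 i _ _ fun k hk => (h3 y k hk).symm⟩)

noncomputable def elem : (alg A0).B ↪ₑ[L] (alg Set.univ).B :=
  inc.toElementaryEmbedding fun n φ x a h => by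
    obtain ⟨T, N, b, h1, h2⟩ := move x a
    refine ⟨b, ?_⟩
    have := (StrongHomClass.realize_boundedFormula (aut T N) φ).2 h
    have h3 : (aut T N ∘ (default : Empty → _)) = default := funext (Empty.elim ·)
    have h4 : (aut T N ∘ Fin.snoc (inc ∘ x) a) = Fin.snoc (inc ∘ x) (inc b) := by
      funext i
      refine Fin.lastCases ?_ (fun j => ?_) i <;> simp [h1, h2]
    rwa [h3, h4] at this

end Pool.Agent.H.MP_50aa38_lc
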