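import Mathlib

/-! Contact algebras, co-ends, the axiom (Reg) and the first-order language. -/

namespace Pool.Agent.H.MP_50aa38_lc

open FirstOrder

/-- A Boolean algebra with a relation `C` satisfying (C1)-(C4). -/
structure ContactAlg where
  B : Type
  [ba : BooleanAlgebra B]
  C : B → B → Prop
  c1 : ∀ a b, C a b → a ≠ ⊥ ∧ b ≠ ⊥
  c2 : ∀ a b c, C a (b ⊔ c) ↔ C a b ∨ C a c
  c3 : ∀ a b, C a b → C b a
  c4 : ∀ a b, a ⊓ b ≠ ⊥ → C a b

attribute [instance] ContactAlg.ba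

def IsClan (A : ContactAlg) (G : Set A.B) : Prop :=
  G.Nonempty ∧ ⊥ ∉ G ∧ (∀ a ∈ G, ∀ b, a ≤ b → b ∈ G) ∧ (∀ a b, a ⊔ b ∈ G → a ∈ G ∨ b ∈ G) ∧
    ∀ a ∈ G, ∀ b ∈ G, A.C a b

def IsCluster (A : ContactAlg) (G : Set A.B) : Prop :=
  IsClan A G ∧ ∀ a, (∀ b ∈ G, A.C a b) → a ∈ G

/-- `a ≪ b` is `¬ A.C a bᶜ`. -/
def IsCoEnd (A : ContactAlg) (G : Set A.B) : Prop :=
  IsCluster A G ∧ ∀ a ∉ G, ∃ b ∉ G, ¬A.C a bᶜ

/-- (Reg): elements in contact lie in a common co-end. -/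
def Reg (A : ContactAlg) : Prop := ∀ a b, A.C a b → ∃ G, IsCoEnd A G ∧ a ∈ G ∧ b ∈ G

/-- Function symbols: join, meet, complement, `0`, `1`. -/
inductive Fn : ℕ → Type
  | sup : Fn 2
  | inf : Fn 2
  | compl : Fn 1
  | zero : Fn 0
  | one : Fn 0

/-- The relation symbol `C`. -/
inductive Rl : ℕ → Type
  | con : Rl 2

/-- The first-order language of contact algebras. -/
def L : Language := ⟨Fn, Rl⟩

instance str (A : ContactAlg) : L.Structure A.B where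
  funMap
    | .sup, v => v 0 ⊔ v 1
    | .inf, v => v 0 ⊓ v 1
    | .compl, v => (v 0)ᶜ
    | .zero, _ => ⊥
    | .one, _ => ⊤
  RelMap
    | .con, v => A.C (v 0) (v 1)

end Pool.Agent.H.MP_50aa38_lc
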